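import Pool.Agent.N869.ZE.Stm
import Pool.Agent.N218.GB.Asy
import Pool.Agent.N502.GB.CNT
import Pool.Agent.N869.QT.G.AVSQ

/-!
# Project ZE (helper869): the average over all sets and colourings, abstract form

Port of `Pool/Agent/N869/QT/ASYC.lean` and `Pool/Agent/N218/GB/Asy.lean`.
-/

set_option autoImplicit false
set_option linter.unusedVariables false
set_option linter.unusedSectionVars false

open scoped Classical
open Finset Filter

namespace Pool.Agent.N814.ZE.ASYA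

open Pool.Agent.N869.ZE
open Pool.Agent.Y703.CX (sm la jj XX eL zz kk eL_tendsto logX_eq HH NN ev_eL one_le_exp
  HH_ge HH_le HH_pos kk_ge kk_le X_pos one_add_log lin_le zz_ge zz_pos)
open Pool.Agent.N916.GB (Po SA CntP)
open Pool.Agent.N218.GB.Asy (Sml sml_of sml_add sml_many sml_cut sml_coll SA_card cmp)
open Pool.Agent.N869.QT.G (exC pr Dep)

/-! ### The main error term -/

noncomputable def kap (C : ℝ) (X : ℕ) : ℝ := (C / zz X) ^ (1 / 24 : ℝ)

theorem kap_nonneg {C : ℝ} (hC : 1 ≤ C) (X : ℕ) : 0 ≤ kap C X := by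
  unfold kap
  positivity

theorem kap_pow {C : ℝ} (hC : 1 ≤ C) {X : ℕ} (h : 1 ≤ eL X) : C ≤ kap C X ^ 24 * zz X := by
  have hz : (0 : ℝ) < zz X := by exact_mod_cast zz_pos h
  unfold kap
  rw [← Real.rpow_natCast, ← Real.rpow_mul (by positivity)]
  norm_num
  rw [div_mul_cancel₀ _ hz.ne']

theorem kap_le {C : ℝ} (hC : 1 ≤ C) {X : ℕ} (h : 1 ≤ eL X) :
    kap C X ≤ 2 * C * Real.exp (-(eL X) ^ 3 / 24) := by
  have hz : (0 : ℝ) < zz X := by exact_mod_cast zz_pos h
  have h1 : kap C X ^ 24 ≤ (2 * C * Real.exp (-(eL X) ^ 3 / 24)) ^ 24 := by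
    have e1 : kap C X ^ 24 = C / zz X := by
      unfold kap
      rw [← Real.rpow_natCast, ← Real.rpow_mul (by positivity)]
      norm_num
    have e2 : (Real.exp (-(eL X) ^ 3 / 24)) ^ 24 = Real.exp (-(eL X) ^ 3) := by
      rw [← Real.exp_nat_mul]
      congr 1
      push_cast
      ring
    rw [e1, mul_pow, e2, div_le_iff₀ hz]
    have h2 := zz_ge h
    have h3 : Real.exp (-(eL X) ^ 3) * Real.exp ((eL X) ^ 3) = 1 := by
      rw [← Real.exp_add]
      simp
    have h4 : 1 / 2 ≤ Real.exp (-(eL X) ^ 3) * zz X := by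
      calc (1 : ℝ) / 2 = Real.exp (-(eL X) ^ 3) * (Real.exp ((eL X) ^ 3) / 2) := by linarith
        _ ≤ _ := mul_le_mul_of_nonneg_left h2 (Real.exp_pos _).le
    have h5 : (2 : ℝ) * C ≤ (2 * C) ^ 24 := le_self_pow₀ (by linarith) (by norm_num)
    calc C = (2 * C) * (1 / 2) := by ring
      _ ≤ (2 * C) ^ 24 * (Real.exp (-(eL X) ^ 3) * zz X) :=
          mul_le_mul h5 h4 (by norm_num) (by positivity)
      _ = _ := by ring
  exact le_of_pow_le_pow_left₀ (by norm_num) (by positivity) h1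

/-- the main error term -/
theorem sml_main {C : ℝ} (hC : 1 ≤ C) (B : ℕ) : Sml fun X => (C * ((NN X : ℝ) + 1)) ^ kk X *
    (2 ^ (B * (kk X + 1) ^ 2) * kap C X) * (X * (1 + Real.log X)) := by
  apply sml_of (C := 4 * C) (a := 1) (by norm_num)
  filter_upwards [ev_eL (24 * (57 + 144 * B) + 4 * C)] with X hX
  set l := eL X with hl
  have hB0 : (0 : ℝ) ≤ B := Nat.cast_nonneg _
  have h0 : 0 < eL X := by linarith
  have h1 : 1 ≤ eL X := by linarith
  have hX0 : (0 : ℝ) ≤ X := Nat.cast_nonneg _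
  have hN : C * ((NN X : ℝ) + 1) ≤ Real.exp (5 * l) := by
    have h2 : (NN X : ℝ) ≤ HH X * Real.log X + 1 := by
      unfold NN
      push_cast
      have := Nat.floor_le (a := (HH X : ℝ) * Real.log X)
        (mul_nonneg (Nat.cast_nonneg _) (Real.log_natCast_nonneg X))
      linarith
    have h3 : (HH X : ℝ) * Real.log X ≤ 2 * Real.exp (4 * l) := by
      rw [logX_eq h0]
      calc (HH X : ℝ) * Real.exp (eL X) ≤ 2 * Real.exp (3 * eL X) * Real.exp (eL X) :=
            mul_le_mul_of_nonneg_right (HH_le h0) (Real.exp_pos _).le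
        _ = 2 * Real.exp (4 * l) := by
            rw [mul_assoc, ← Real.exp_add]
            congr 2
            rw [hl]
            ring
    have h4 : 1 ≤ Real.exp (4 * l) := one_le_exp (by linarith)
    have h5 : 4 * C ≤ Real.exp l := by
      have := Real.add_one_le_exp l
      linarith
    have h6 : Real.exp (5 * l) = Real.exp (4 * l) * Real.exp l := by
      rw [← Real.exp_add]; congr 1; ring
    rw [h6]
    have h7 : (NN X : ℝ) + 1 ≤ 4 * Real.exp (4 * l) := by linarith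
    calc C * ((NN X : ℝ) + 1) ≤ C * (4 * Real.exp (4 * l)) := by gcongr
      _ = Real.exp (4 * l) * (4 * C) := by ring
      _ ≤ Real.exp (4 * l) * Real.exp l := by gcongr
  have hN0 : (0 : ℝ) ≤ C * ((NN X : ℝ) + 1) := by positivity
  have hkk := kk_le h1
  have hkk0 : (0 : ℝ) ≤ kk X := Nat.cast_nonneg _
  have hA : (C * ((NN X : ℝ) + 1)) ^ kk X ≤ Real.exp (55 * l ^ 2) := by
    calc (C * ((NN X : ℝ) + 1)) ^ kk X ≤ (Real.exp (5 * l)) ^ kk X := by gcongr
      _ = Real.exp (kk X * (5 * l)) := (Real.exp_nat_mul _ _).symm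
      _ ≤ Real.exp (55 * l ^ 2) := by
          apply Real.exp_le_exp.2
          nlinarith
  have hB : (2 : ℝ) ^ (B * (kk X + 1) ^ 2) ≤ Real.exp (144 * B * l ^ 2) := by
    have e : (2 : ℝ) ^ (B * (kk X + 1) ^ 2) =
        Real.exp ((B * ((kk X : ℝ) + 1) ^ 2) * Real.log 2) := by
      rw [mul_comm (B * ((kk X : ℝ) + 1) ^ 2) (Real.log 2), Real.exp_mul,
        Real.exp_log (by norm_num)]
      rw [← Real.rpow_natCast]
      congr 1
      push_cast
      ring
    rw [e]
    apply Real.exp_le_exp.2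
    have h2 : Real.log 2 ≤ 1 := by
      have := Real.log_two_lt_d9
      linarith
    have h3 : ((kk X : ℝ) + 1) ^ 2 ≤ 144 * l ^ 2 := by
      have h4 : (kk X : ℝ) + 1 ≤ 12 * l := by linarith
      nlinarith
    have h5 : 0 ≤ B * ((kk X : ℝ) + 1) ^ 2 := by positivity
    calc (B * ((kk X : ℝ) + 1) ^ 2) * Real.log 2 ≤ (B * ((kk X : ℝ) + 1) ^ 2) * 1 := by gcongr
      _ ≤ (B * (144 * l ^ 2)) * 1 := by gcongr
      _ = 144 * B * l ^ 2 := by ring
  have hK := kap_le hC h1
  have hLg := one_add_log h0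
  have hmain : (C * ((NN X : ℝ) + 1)) ^ kk X * (2 ^ (B * (kk X + 1) ^ 2) * kap C X) *
      (X * (1 + Real.log X)) ≤ Real.exp (55 * l ^ 2) * (Real.exp (144 * B * l ^ 2) *
        (2 * C * Real.exp (-l ^ 3 / 24))) * (X * (2 * Real.exp l)) := by
    have := kap_nonneg hC X
    have : 0 ≤ 1 + Real.log X := by
      have := Real.log_natCast_nonneg X
      linarith
    gcongr
  refine hmain.trans ?_
  have e : Real.exp (55 * l ^ 2) * (Real.exp (144 * B * l ^ 2) *
        (2 * C * Real.exp (-l ^ 3 / 24))) * (X * (2 * Real.exp l)) =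
      4 * C * (X * Real.exp (55 * l ^ 2 + 144 * B * l ^ 2 + -l ^ 3 / 24 + l)) := by
    rw [Real.exp_add, Real.exp_add, Real.exp_add]
    ring
  rw [e]
  have h9 : 55 * l ^ 2 + 144 * B * l ^ 2 + -l ^ 3 / 24 + l ≤ -1 * l := by
    have h10 : (24 * (57 + 144 * B)) * l ^ 2 ≤ l ^ 3 := by
      have : l ^ 3 = l * l ^ 2 := by ring
      rw [this]
      exact mul_le_mul_of_nonneg_right (by linarith) (sq_nonneg l)
    have h11 : l ≤ l ^ 2 := by nlinarith
    nlinarith
  have h11 := Real.exp_le_exp.2 h9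
  have hC0 : (0 : ℝ) ≤ 4 * C := by linarith
  gcongr

section main

variable {Q V : Type}

theorem cnt_congr0 {Λ : Type} {lab lab' : ℕ → Λ} {S : Finset ℕ}
    (h : ∀ p ∈ S, lab p = lab' p) : cnt lab S = cnt lab' S := by
  funext l
  unfold cnt
  apply congrArg Finset.card
  refine Finset.filter_congr fun p hp => ?_
  rw [h p hp]

theorem cnt_congr {γ γ' : ℕ → Q} (lv : ℕ → V) {S : Finset ℕ} (h : ∀ p ∈ S, γ p = γ' p) :
    cnt (lc γ lv) S = cnt (lc γ' lv) S :=
  cnt_congr0 fun p hp => by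
    unfold lc
    rw [h p hp]

/-- the class -/
def PC (lv : ℕ → V) (P : (Q × V → ℕ) → Prop) (S : Finset ℕ) (γ : ℕ → Q) : Prop :=
  P (cnt (lc γ lv) S)

/-- the class, and good -/
def PG (lv : ℕ → V) (P : (Q × V → ℕ) → Prop) (G : (ℕ → Q) → Finset ℕ → Prop) (S : Finset ℕ)
    (γ : ℕ → Q) : Prop := P (cnt (lc γ lv) S) ∧ G γ S

/-- degenerate -/
def PN (lv : ℕ → V) (P : (Q × V → ℕ) → Prop) (N : (ℕ → Q) → Finset ℕ → Finset ℕ → Prop) (z : ℕ)
    (S : Finset ℕ) (γ : ℕ → Q) : Prop := P (cnt (lc γ lv) S) ∧ ¬ N γ (sm z S) (la z S)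

/-- the sets outside the regular part -/
theorem out_sub (lv : ℕ → V) (γ : ℕ → Q) (P : (Q × V → ℕ) → Prop)
    (N : (ℕ → Q) → Finset ℕ → Finset ℕ → Prop) (X z H k : ℕ) :
    ((SA X).filter fun S => PC lv P S γ) \
        ((RgA (lc γ lv) P X z H k).filter fun S => N γ (sm z S) (la z S)) ⊆
      ((((SA X).filter fun S => k < S.card) ∪
      ((SA X).filter fun S => S.card ≤ k ∧
        X < (∏ p ∈ sm z S, p) * ∏ p ∈ la z S, XX H (jj H p))) ∪
      ((SA X).filter fun S => ¬ Set.InjOn (jj H) (la z S : Set ℕ))) ∪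
      (((SA X).filter fun S => S.card ≤ k).filter fun S => PN lv P N z S γ) := by
  intro S hS
  rw [Finset.mem_sdiff, Finset.mem_filter, Finset.mem_filter] at hS
  obtain ⟨⟨h1, h1'⟩, h2⟩ := hS
  simp only [mem_union, mem_filter]
  by_contra hc
  push Not at hc
  obtain ⟨⟨⟨c1, c2⟩, c3⟩, c5⟩ := hc
  have d1 : S.card ≤ k := c1 h1
  have d2 := c2 h1 d1
  have d3 := c3 h1
  have d5 := c5 ⟨h1, d1⟩
  unfold PN at d5
  have d6 : N γ (sm z S) (la z S) := by
    by_contra hn
    exact d5 ⟨h1', hn⟩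
  apply h2
  refine ⟨?_, d6⟩
  unfold RgA
  rw [mem_filter]
  exact ⟨h1, d3, d1, d2, h1'⟩

/-- the average -/
theorem avg_bound {α : Type} (F : Fintype α) (f g h : α → ℝ) {c M W : ℝ}
    (hcW : ((Fintype.card α : ℕ) : ℝ) = W) (hper : ∀ a, |f a - c * g a| ≤ M + h a) :
    |(∑ a, f a) - c * ∑ a, g a| ≤ M * W + ∑ a, h a := by
  rw [Finset.mul_sum, ← Finset.sum_sub_distrib]
  refine (Finset.abs_sum_le_sum_abs _ _).trans ?_
  refine (Finset.sum_le_sum fun a _ => hper a).trans ?_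
  rw [Finset.sum_add_distrib, Finset.sum_const, Finset.card_univ, nsmul_eq_mul, hcW, mul_comm M]

/-- the statement for a fixed colouring -/
theorem per_col (lv : ℕ → V) (γ : ℕ → Q) (P : (Q × V → ℕ) → Prop)
    (N : (ℕ → Q) → Finset ℕ → Finset ℕ → Prop) (G : (ℕ → Q) → Finset ℕ → Prop) (X z H k : ℕ)
    {g ε m : ℝ} (hg0 : 0 ≤ g) (hg1 : g ≤ 1) (hε : 0 ≤ ε)
    (hmain : |(((RgA (lc γ lv) P X z H k).filter fun S =>
          N γ (sm z S) (la z S) ∧ G γ S).card : ℝ) -
        g * (((RgA (lc γ lv) P X z H k).filter fun S => N γ (sm z S) (la z S)).card : ℝ)| ≤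
      ε * ((RgA (lc γ lv) P X z H k).card : ℝ) + m) :
    |(((SA X).filter fun S => PG lv P G S γ).card : ℝ) -
        g * (((SA X).filter fun S => PC lv P S γ).card : ℝ)| ≤
      (ε * ((SA X).card : ℝ) + m + (((((SA X).filter fun S => k < S.card).card : ℝ) +
      (((SA X).filter fun S => S.card ≤ k ∧
        X < (∏ p ∈ sm z S, p) * ∏ p ∈ la z S, XX H (jj H p)).card : ℝ) +
      (((SA X).filter fun S => ¬ Set.InjOn (jj H) (la z S : Set ℕ)).card : ℝ)))) +
      ((((SA X).filter fun S => S.card ≤ k).filter fun S => PN lv P N z S γ).card : ℝ) := by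
  set T := (RgA (lc γ lv) P X z H k).filter
    fun S => N γ (sm z S) (la z S) with hT
  set A := (SA X).filter fun S => PC lv P S γ with hA
  have hTG : ((RgA (lc γ lv) P X z H k).filter
      (fun S => N γ (sm z S) (la z S) ∧ G γ S)).card = (T.filter (G γ)).card := by
    rw [hT, filter_filter]
  rw [hTG] at hmain
  have hTA : T ⊆ A := by
    intro S hS
    rw [hT, mem_filter] at hS
    have h1 := hS.1
    unfold RgA at h1
    rw [mem_filter] at h1
    rw [hA, mem_filter]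
    exact ⟨h1.1, h1.2.2.2.2⟩
  have hAG : ((SA X).filter fun S => PG lv P G S γ).card = (A.filter (G γ)).card := by
    rw [hA, filter_filter]
    congr 1
    refine filter_congr fun S _ => ?_
    unfold PG PC
    exact Iff.rfl
  have hRS : ((RgA (lc γ lv) P X z H k).card : ℝ) ≤ ((SA X).card : ℝ) := by
    exact_mod_cast card_le_card (filter_subset _ _)
  have hcmp := cmp (G γ) T A hTA g hg0 hg1
  have hout : ((A \ T).card : ℝ) ≤
      ((((SA X).filter fun S => k < S.card).card : ℝ) +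
      (((SA X).filter fun S => S.card ≤ k ∧
        X < (∏ p ∈ sm z S, p) * ∏ p ∈ la z S, XX H (jj H p)).card : ℝ) +
      (((SA X).filter fun S => ¬ Set.InjOn (jj H) (la z S : Set ℕ)).card : ℝ)) +
      ((((SA X).filter fun S => S.card ≤ k).filter fun S => PN lv P N z S γ).card : ℝ) := by
    have g := card_le_card (out_sub lv γ P N X z H k)
    rw [← hT, ← hA] at g
    have g2 := (g.trans (card_union_le _ _)).trans (Nat.add_le_add_right ((card_union_le _ _).trans
      (Nat.add_le_add_right (card_union_le _ _) _)) _)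
    exact_mod_cast g2
  have g1 : ε * ((RgA (lc γ lv) P X z H k).card : ℝ) ≤
      ε * ((SA X).card : ℝ) := mul_le_mul_of_nonneg_left hRS hε
  rw [hAG]
  linarith

end main

/-- **ZE-ASY.** -/
theorem t_ASYA (hK : Pool.Agent.N869.ZE.S_KEYA) : Pool.Agent.N869.ZE.S_ASYA := by
  intro Q V _ _ _ lv Pair C₁ hBil P N G g ε B hg0 hg1 hε hG hN hBox hRare
  obtain ⟨C, hC1, hkey⟩ := hK (Q × V) Pair C₁ hBil
  have hCnt : CntP := Pool.Agent.N502.GB.CNT.t_CNT
  have hAV : Pool.Agent.N869.QT.G.S_AV2 := Pool.Agent.N869.QT.G.t_AV2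
  obtain ⟨X₁, hR⟩ := hRare
  have s := sml_add (sml_add (sml_add (sml_many hCnt) (sml_cut hCnt)) (sml_coll hCnt))
    (sml_main hC1 B)
  have hev := (s ε hε).and ((ev_eL 1).and (eventually_ge_atTop X₁))
  obtain ⟨X₀, hX₀⟩ := eventually_atTop.1 hev
  refine ⟨X₀, fun X hXX => ?_⟩
  obtain ⟨hX, hl, hX1⟩ := hX₀ X hXX
  have hl0 : 0 < eL X := by linarith
  have hXp := X_pos hl0
  have hXp' : (0 : ℝ) < X := by exact_mod_cast hXp
  have hNN : (HH X : ℝ) * Real.log X < NN X := by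
    unfold NN
    push_cast
    exact Nat.lt_floor_add_one _
  set QB : Finset ℕ := range (X + 1) with hQB
  have hBsub : ∀ S ∈ SA X, S ⊆ QB := by
    intro S hS
    unfold SA at hS
    exact Finset.mem_powerset.1 (Finset.mem_filter.1 hS).1
  have hsm : ∀ S : Finset ℕ, ∀ p ∈ sm (zz X) S ∪ la (zz X) S, p ∈ S := by
    intro S p hp
    rw [mem_union] at hp
    unfold sm la at hp
    rcases hp with hp | hp
    · exact (mem_filter.1 hp).1
    · exact (mem_filter.1 hp).1
  have a1 := hAV ℕ Q QB (SA X) (PG lv P G) hBsub (fun S _ γ γ' h => by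
    unfold PG
    rw [cnt_congr lv h, hG S γ γ' h])
  have a2 := hAV ℕ Q QB (SA X) (PC lv P) hBsub (fun S _ γ γ' h => by
    unfold PC
    rw [cnt_congr lv h])
  have a3 := hAV ℕ Q QB ((SA X).filter fun S => S.card ≤ kk X) (PN lv P N (zz X))
    (fun S hS => hBsub S (Finset.mem_filter.1 hS).1)
    (fun S _ γ γ' h => by
      unfold PN
      rw [cnt_congr lv h, hN (sm (zz X) S) (la (zz X) S) γ γ' fun p hp => h p (hsm S p hp)])
  have hfb' : ∑ S ∈ (SA X).filter (fun S => S.card ≤ kk X), pr S (PN lv P N (zz X) S) ≤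
      ε * X := hR X hX1
  rw [a3] at hfb'
  show |∑ S ∈ SA X, pr S (PG lv P G S) - g * ∑ S ∈ SA X, pr S (PC lv P S)| ≤ 3 * ε * X
  rw [a1, a2]
  set W : ℝ := (Fintype.card Q : ℝ) ^ QB.card with hW
  have hQ0 : (0 : ℝ) < Fintype.card Q := by exact_mod_cast Fintype.card_pos
  have hW0 : 0 < W := pow_pos hQ0 _
  have hcW : ∀ F : Fintype (QB → Q), ((@Fintype.card (QB → Q) F : ℕ) : ℝ) = W := by
    intro F
    rw [← @Nat.card_eq_fintype_card _ F, Nat.card_fun, Nat.card_eq_fintype_card,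
      Nat.card_eq_fintype_card, Fintype.card_coe]
    push_cast
    rfl
  set M : ℝ := (ε * ((SA X).card : ℝ) + (C * ((NN X : ℝ) + 1)) ^ kk X *
    (2 ^ (B * (kk X + 1) ^ 2) * kap C X) * (X * (1 + Real.log X)) +
      (((((SA X).filter fun S => kk X < S.card).card : ℝ) +
      (((SA X).filter fun S => S.card ≤ kk X ∧
        X < (∏ p ∈ sm (zz X) S, p) * ∏ p ∈ la (zz X) S, XX (HH X) (jj (HH X) p)).card : ℝ) +
      (((SA X).filter fun S => ¬ Set.InjOn (jj (HH X)) (la (zz X) S : Set ℕ)).card : ℝ)))) with hM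
  have hper : ∀ c : QB → Q,
      |(((SA X).filter fun S => PG lv P G S (exC QB c)).card : ℝ) -
        g * (((SA X).filter fun S => PC lv P S (exC QB c)).card : ℝ)| ≤
      M + ((((SA X).filter fun S => S.card ≤ kk X).filter fun S =>
        PN lv P N (zz X) S (exC QB c)).card : ℝ) := by
    intro c
    exact per_col lv (exC QB c) P N G X (zz X) (HH X) (kk X) hg0 hg1 hε.le
      (hkey (lc (exC QB c) lv) P (N (exC QB c)) (G (exC QB c)) g ε B hε.le (hBox (exC QB c))
        X (zz X) (HH X) (kk X) (NN X) (kap C X) hXp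
        (HH_pos hl0) (zz_pos hl) (kap_nonneg hC1 X) (kap_pow hC1 hl) hNN)
  have hMle : M ≤ 2 * ε * X := by
    have g1 : ε * ((SA X).card : ℝ) ≤ ε * X := by
      have g2 : ((SA X).card : ℝ) ≤ X := by exact_mod_cast SA_card X
      gcongr
    rw [hM]
    linarith
  have e1 : ∀ a b : ℝ, a / W - g * (b / W) = (a - g * b) / W := by
    intro a b
    rw [sub_div, mul_div_assoc]
  rw [e1, abs_div, abs_of_pos hW0, div_le_iff₀ hW0]
  refine le_trans (avg_bound _ _ _ _ (hcW _) hper) ?_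
  rw [div_le_iff₀ hW0] at hfb'
  have g3 : M * W ≤ 2 * ε * X * W := mul_le_mul_of_nonneg_right hMle hW0.le
  have g4 : 0 ≤ ε * X * W := by positivity
  linarith

end Pool.Agent.N814.ZE.ASYA
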